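import Pool.Agent.Y944.SumCF2

set_option autoImplicit false
set_option maxHeartbeats 4000000

open Filter Topology

namespace Pool.Agent.Y944.SumCF

open H313R3.BK

/-- every rational in `(0,1]` has an expansion of odd length, together with its Möbius form -/
theorem odd_expansion : ∀ (Q P : ℕ), 0 < P → P ≤ Q → ∃ (v : List ℕ) (r r' s s' : ℕ),
    (∀ c ∈ v, 1 ≤ c) ∧ 1 ≤ s ∧ r * s' = r' * s + 1 ∧
    (∀ t : ℝ, 0 ≤ t → ev v t = ((r : ℝ) + r' * t) / ((s : ℝ) + s' * t)) ∧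
    (P : ℝ) / Q = (r : ℝ) / s := by
  intro Q
  induction Q using Nat.strong_induction_on with
  | _ Q ih =>
    intro P hP hPQ
    have hQ : 0 < Q := by omega
    have hc : 1 ≤ Q / P := (Nat.one_le_div_iff hP).2 hPQ
    have hdiv := Nat.div_add_mod Q P
    obtain ⟨c, hcdef⟩ : ∃ c, c = Q / P := ⟨_, rfl⟩
    obtain ⟨R, hR⟩ : ∃ R, R = Q % P := ⟨_, rfl⟩
    have hRP : R < P := by rw [hR]; exact Nat.mod_lt _ hP
    rw [← hcdef] at hc hdiv
    rw [← hR] at hdiv
    have hPr : (0 : ℝ) < P := by exact_mod_cast hP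
    have hQr : (0 : ℝ) < Q := by exact_mod_cast hQ
    have hcr : (1 : ℝ) ≤ c := by exact_mod_cast hc
    have hdivr : (P : ℝ) * c + R = Q := by exact_mod_cast hdiv
    rcases Nat.eq_zero_or_pos R with h0 | h0
    · refine ⟨[c], 1, 0, c, 1, ?_, hc, by simp, ?_, ?_⟩
      · intro d hd
        rw [List.mem_singleton] at hd
        rw [hd]; exact hc
      · intro t ht
        rw [ev_cons, ev_nil]
        push_cast
        ring
      · rw [h0] at hdivr
        push_cast at hdivr ⊢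
        rw [div_eq_div_iff hQr.ne' (by positivity)]
        linarith
    · have hd2 := Nat.div_add_mod (P - 1) R
      obtain ⟨c', hc'⟩ : ∃ c', c' = (P - 1) / R := ⟨_, rfl⟩
      obtain ⟨P', hP'⟩ : ∃ P', P' = (P - 1) % R + 1 := ⟨_, rfl⟩
      have hP'R : P' ≤ R := by
        rw [hP']
        exact Nat.mod_lt _ h0
      have hc'1 : 1 ≤ c' := by
        rw [hc']
        exact (Nat.one_le_div_iff h0).2 (by omega)
      rw [← hc'] at hd2
      have hP'P : R * c' + P' = P := by omega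
      obtain ⟨v, r, r', s, s', hv, hs, hdet, hev, hq⟩ := ih R (by omega) P' (by omega) hP'R
      have hRr : (0 : ℝ) < R := by exact_mod_cast h0
      have hsr : (1 : ℝ) ≤ s := by exact_mod_cast hs
      have hc'r : (1 : ℝ) ≤ c' := by exact_mod_cast hc'1
      have hP'Pr : (R : ℝ) * c' + P' = P := by exact_mod_cast hP'P
      refine ⟨c :: c' :: v, c' * s + r, c' * s' + r', c * (c' * s + r) + s,
        c * (c' * s' + r') + s', ?_, by omega, ?_, ?_, ?_⟩
      · intro d hd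
        simp only [List.mem_cons] at hd
        rcases hd with rfl | rfl | hd
        · exact hc
        · exact hc'1
        · exact hv d hd
      · zify at hdet ⊢
        linear_combination hdet
      · intro t ht
        rw [ev_cons, ev_cons, hev t ht]
        have k1 : (0 : ℝ) < s + s' * t := by positivity
        have k2 : (0 : ℝ) < (c' : ℝ) + ((r : ℝ) + r' * t) / ((s : ℝ) + s' * t) := by positivity
        have k3 : (c' : ℝ) + ((r : ℝ) + r' * t) / ((s : ℝ) + s' * t) =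
          ((c' : ℝ) * (s + s' * t) + (r + r' * t)) / (s + s' * t) := by
          field_simp
        rw [k3, one_div_div]
        have k4 : (0 : ℝ) < (c' : ℝ) * (s + s' * t) + (r + r' * t) := by positivity
        have k5 : (c : ℝ) + ((s : ℝ) + s' * t) / ((c' : ℝ) * (s + s' * t) + (r + r' * t)) =
          ((c : ℝ) * ((c' : ℝ) * (s + s' * t) + (r + r' * t)) + (s + s' * t)) /
            ((c' : ℝ) * (s + s' * t) + (r + r' * t)) := by
          field_simp
        rw [k5, one_div_div]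
        push_cast
        congr 1 <;> ring
      · have e1 : (P' : ℝ) * s = r * R := by
          rw [div_eq_div_iff hRr.ne' (by positivity)] at hq
          linarith
        rw [div_eq_div_iff hQr.ne' (by positivity)]
        push_cast
        rw [← hdivr, ← hP'Pr]
        linear_combination e1

/-- prepend a digit -/
def consS (c : ℕ) (b : ℕ → ℕ) : ℕ → ℕ
  | 0 => c
  | n + 1 => b n

theorem sh_consS (c : ℕ) (b : ℕ → ℕ) : sh (consS c b) = b := rfl

theorem cf_consS (c : ℕ) (b : ℕ → ℕ) (hc : 1 ≤ c) (hb : ∀ n, 1 ≤ b n) :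
    cf (consS c b) = 1 / ((c : ℝ) + cf b) := by
  rw [cf_rec (consS c b) (fun i => by cases i <;> simp [consS, hc, hb]), sh_consS]
  rfl

theorem consS_one (c : ℕ) (b : ℕ → ℕ) (hc : 1 ≤ c) (hb : ∀ n, 1 ≤ b n) : ∀ n, 1 ≤ consS c b n :=
  fun i => by cases i <;> simp [consS, hc, hb]

theorem consS_tendsto (c : ℕ) (b : ℕ → ℕ) (hb : Tendsto b atTop atTop) :
    Tendsto (consS c b) atTop atTop := by
  rw [← tendsto_add_atTop_iff_nat 1]
  exact hb

theorem prepend (v : List ℕ) (b : ℕ → ℕ) (hv : ∀ c ∈ v, 1 ≤ c) (hb : ∀ n, 1 ≤ b n)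
    (hb' : Tendsto b atTop atTop) :
    ∃ a : ℕ → ℕ, (∀ n, 1 ≤ a n) ∧ Tendsto a atTop atTop ∧ cf a = ev v (cf b) := by
  induction v with
  | nil => exact ⟨b, hb, hb', rfl⟩
  | cons c v ih =>
    obtain ⟨a, h1, h2, h3⟩ := ih (fun d hd => hv d (List.mem_cons_of_mem _ hd))
    have hc := hv c List.mem_cons_self
    exact ⟨consS c a, consS_one c a hc h1, consS_tendsto c a h2, by
      rw [cf_consS c a hc h1, ev_cons, h3]⟩

/-- the sequence `m` with the even places multiplied by `C` -/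
def pE (C : ℕ) (m : ℕ → ℕ) : ℕ → ℕ := fun n => if Even n then C * m n else m n

/-- the sequence `m` with the odd places multiplied by `C` -/
def pO (C : ℕ) (m : ℕ → ℕ) : ℕ → ℕ := fun n => if Even n then m n else C * m n

theorem sh_pE (C : ℕ) (m : ℕ → ℕ) : sh (pE C m) = pO C (sh m) := by
  funext n
  simp only [sh, pE, pO, Nat.even_add_one]
  split_ifs <;> simp_all

theorem sh_pO (C : ℕ) (m : ℕ → ℕ) : sh (pO C m) = pE C (sh m) := by
  funext n
  simp only [sh, pE, pO, Nat.even_add_one]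
  split_ifs <;> simp_all

theorem pE_one (C : ℕ) (hC : 1 ≤ C) (m : ℕ → ℕ) (hm : ∀ n, 1 ≤ m n) : ∀ n, 1 ≤ pE C m n := by
  intro n
  simp only [pE]
  split_ifs
  · exact Nat.mul_pos hC (hm n)
  · exact hm n

theorem pO_one (C : ℕ) (hC : 1 ≤ C) (m : ℕ → ℕ) (hm : ∀ n, 1 ≤ m n) : ∀ n, 1 ≤ pO C m n := by
  intro n
  simp only [pO]
  split_ifs
  · exact hm n
  · exact Nat.mul_pos hC (hm n)

theorem pE_ge (C : ℕ) (hC : 1 ≤ C) (m : ℕ → ℕ) (n : ℕ) : m n ≤ pE C m n := by
  simp only [pE]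
  split_ifs
  · exact Nat.le_mul_of_pos_left _ hC
  · exact le_rfl

theorem pO_ge (C : ℕ) (hC : 1 ≤ C) (m : ℕ → ℕ) (n : ℕ) : m n ≤ pO C m n := by
  simp only [pO]
  split_ifs
  · exact le_rfl
  · exact Nat.le_mul_of_pos_left _ hC

theorem ap_scale (C : ℕ) (hC : 1 ≤ C) : ∀ (n : ℕ) (m : ℕ → ℕ), (∀ n, 1 ≤ m n) →
    (C : ℝ) * ap n (pE C m) = ap n (pO C m)
  | 0, m, _ => by simp [ap]
  | n + 1, m, hm => by
    have ih := ap_scale C hC n (sh m) (fun i => hm (i + 1))
    have hCr : (1 : ℝ) ≤ C := by exact_mod_cast hC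
    have hmr : (1 : ℝ) ≤ m 0 := by exact_mod_cast hm 0
    have h1 := (ap_mem n (pE C (sh m)) (pE_one C hC _ (fun i => hm (i + 1)))).1
    simp only [ap]
    rw [sh_pE, sh_pO, ← ih]
    have e1 : pE C m 0 = C * m 0 := by simp [pE]
    have e2 : pO C m 0 = m 0 := by simp [pO]
    rw [e1, e2]
    push_cast
    rw [← mul_add, mul_one_div, div_eq_div_iff (by positivity) (by positivity)]
    ring

theorem cf_scale (C : ℕ) (hC : 1 ≤ C) (m : ℕ → ℕ) (hm : ∀ n, 1 ≤ m n) :
    (C : ℝ) * cf (pE C m) = cf (pO C m) := by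
  have h1 := (cf_tendsto (pE C m) (pE_one C hC m hm)).const_mul (C : ℝ)
  have h2 := cf_tendsto (pO C m) (pO_one C hC m hm)
  exact tendsto_nhds_unique (h1.congr (fun n => ap_scale C hC n m hm)) h2

theorem main_rational (P Q : ℕ) (hP : 0 < P) (hPQ : P ≤ Q) :
    ∃ a b : ℕ → ℕ, (∀ n, 1 ≤ a n) ∧ (∀ n, 1 ≤ b n) ∧ Tendsto a atTop atTop ∧
      Tendsto b atTop atTop ∧ (P : ℝ) / Q = cf a + cf b := by
  obtain ⟨v, r, r', s, s', hv, hs, hdet, hev, hq⟩ := odd_expansion Q P hP hPQ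
  have hC : 1 ≤ s ^ 2 := Nat.one_le_pow _ _ hs
  obtain ⟨m, hm⟩ : ∃ m : ℕ → ℕ, m = fun n => n + 1 := ⟨_, rfl⟩
  have hm1 : ∀ n, 1 ≤ m n := by rw [hm]; intro n; simp
  have hmt : Tendsto m atTop atTop := by
    rw [hm]
    exact tendsto_add_atTop_nat 1
  have hE1 := pE_one (s ^ 2) hC m hm1
  have hO1 := pO_one (s ^ 2) hC m hm1
  have hEt : Tendsto (pE (s ^ 2) m) atTop atTop := tendsto_atTop_mono (pE_ge (s ^ 2) hC m) hmt
  have hOt : Tendsto (pO (s ^ 2) m) atTop atTop := tendsto_atTop_mono (pO_ge (s ^ 2) hC m) hmt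
  have hb1 := consS_one 1 (pE (s ^ 2) m) le_rfl hE1
  have hbt := consS_tendsto 1 (pE (s ^ 2) m) hEt
  obtain ⟨b, hb, hb', hb''⟩ := prepend v (consS 1 (pE (s ^ 2) m)) hv hb1 hbt
  have hK : 1 ≤ s ^ 2 + s * s' := by omega
  refine ⟨consS (s ^ 2 + s * s') (pO (s ^ 2) m), b, consS_one _ _ hK hO1, hb,
    consS_tendsto _ _ hOt, hb', ?_⟩
  rw [cf_consS _ _ hK hO1, hb'', cf_consS _ _ le_rfl hE1, ← cf_scale (s ^ 2) hC m hm1, hq]
  obtain ⟨y, hy⟩ : ∃ y, y = cf (pE (s ^ 2) m) := ⟨_, rfl⟩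
  have hy0 : 0 < y := by rw [hy]; exact cf_pos _ hE1
  rw [← hy, hev _ (by positivity)]
  have hsr : (1 : ℝ) ≤ s := by exact_mod_cast hs
  have hdetr : (r : ℝ) * s' = r' * s + 1 := by exact_mod_cast hdet
  push_cast
  have k1 : (0 : ℝ) < 1 + y := by linarith
  have k2 : (0 : ℝ) < (s : ℝ) * (1 + y) + s' := by positivity
  have e1 : (s : ℝ) ^ 2 + s * s' + s ^ 2 * y = s * (s * (1 + y) + s') := by ring
  have e2 : ((r : ℝ) + r' * (1 / (1 + y))) / (s + s' * (1 / (1 + y))) =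
      (r * (1 + y) + r') / (s * (1 + y) + s') := by
    field_simp
  rw [e1, e2]
  rw [div_add_div _ _ (by positivity) k2.ne', div_eq_div_iff (by positivity) (by positivity)]
  linear_combination (s * (s * (1 + y) + s')) * hdetr

end Pool.Agent.Y944.SumCF
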