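import Mathlib
import Pool.Agent.H313R3.BK.CF

/-!
# Sums of two continued fractions with partial quotients tending to infinity
-/

set_option autoImplicit false
set_option maxHeartbeats 4000000

open Filter Topology

namespace Pool.Agent.Y944.SumCF

open H313R3.BK

/-- value of the finite continued fraction `[0; l]` with last remainder `t` -/
noncomputable def ev (l : List ℕ) (t : ℝ) : ℝ := l.foldr (fun c t => 1 / ((c : ℝ) + t)) t

theorem ev_nil (t : ℝ) : ev [] t = t := rfl

theorem ev_cons (c : ℕ) (l : List ℕ) (t : ℝ) : ev (c :: l) t = 1 / ((c : ℝ) + ev l t) := rfl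

theorem ev_concat (l : List ℕ) (c : ℕ) (t : ℝ) : ev (l ++ [c]) t = ev l (1 / ((c : ℝ) + t)) := by
  simp [ev, List.foldr_append]

theorem ev_append (l l' : List ℕ) (t : ℝ) : ev (l ++ l') t = ev l (ev l' t) := by
  simp [ev, List.foldr_append]

theorem ev_mem : ∀ (l : List ℕ), (∀ c ∈ l, 1 ≤ c) → ∀ t : ℝ, 0 ≤ t → t ≤ 1 →
    0 ≤ ev l t ∧ ev l t ≤ 1
  | [], _, t, h0, h1 => ⟨h0, h1⟩
  | c :: l, h, t, h0, h1 => by
    obtain ⟨h2, h3⟩ := ev_mem l (fun d hd => h d (List.mem_cons_of_mem _ hd)) t h0 h1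
    have hc : (1 : ℝ) ≤ c := by exact_mod_cast h c List.mem_cons_self
    rw [ev_cons]
    constructor
    · positivity
    · rw [div_le_one (by linarith)]
      linarith

theorem ev_dist : ∀ (l : List ℕ), (∀ c ∈ l, 1 ≤ c) → ∀ s t : ℝ, 0 ≤ s → s ≤ 1 → 0 ≤ t → t ≤ 1 →
    |ev l s - ev l t| ≤ 2 * (1 / 2) ^ l.length
  | [], _, s, t, hs0, hs1, ht0, ht1 => by
    simp only [ev_nil, List.length_nil, pow_zero, mul_one]
    rw [abs_le]
    constructor <;> linarith
  | [c], h, s, t, hs0, hs1, ht0, ht1 => by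
    have h1 := ev_mem [c] h s hs0 hs1
    have h2 := ev_mem [c] h t ht0 ht1
    simp only [List.length_singleton, pow_one]
    rw [abs_le]
    constructor <;> linarith [h1.1, h1.2, h2.1, h2.2]
  | c :: d :: l, h, s, t, hs0, hs1, ht0, ht1 => by
    have hl : ∀ e ∈ l, 1 ≤ e := fun e he =>
      h e (List.mem_cons_of_mem _ (List.mem_cons_of_mem _ he))
    have ih := ev_dist l hl s t hs0 hs1 ht0 ht1
    have h1 := ev_mem l hl s hs0 hs1
    have h2 := ev_mem l hl t ht0 ht1
    have hc : (1 : ℝ) ≤ c := by exact_mod_cast h c List.mem_cons_self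
    have hd : (1 : ℝ) ≤ d := by
      exact_mod_cast h d (List.mem_cons_of_mem _ List.mem_cons_self)
    have h3 := @two_step (c : ℝ) (d : ℝ) (ev l s) (ev l t) hc hd h1.1 h2.1
    simp only [ev_cons, List.length_cons]
    refine h3.trans ?_
    calc 1 / 4 * |ev l s - ev l t| ≤ 1 / 4 * (2 * (1 / 2) ^ l.length) := by linarith
      _ = 2 * (1 / 2) ^ (l.length + 1 + 1) := by ring

theorem ev_rat : ∀ (l : List ℕ) (q : ℚ), ∃ r : ℚ, ev l (q : ℝ) = r
  | [], q => ⟨q, rfl⟩
  | c :: l, q => by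
    obtain ⟨r, hr⟩ := ev_rat l q
    refine ⟨1 / ((c : ℚ) + r), ?_⟩
    rw [ev_cons, hr]
    push_cast
    rfl

/-- the first `n` digits of a continued fraction -/
theorem ev_cf (a : ℕ → ℕ) (h : ∀ i, 1 ≤ a i) (n : ℕ) :
    ev ((List.range n).map a) (cf (shn n a)) = cf a := by
  induction n with
  | zero =>
    have e : shn 0 a = a := rfl
    rw [e]
    rfl
  | succ n ih =>
    rw [List.range_succ, List.map_append, List.map_cons, List.map_nil, ev_concat, ← sh_shn]
    have := cf_rec (shn n a) (fun i => h (i + n))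
    have e : shn n a 0 = a n := by simp [shn]
    rw [e] at this
    rw [← this, ih]

/-- the state of the greedy algorithm -/
structure St where
  L : Bool → List ℕ
  i : Bool
  α : ℝ
  β : ℝ
  γ : ℝ
  δ : ℝ

/-- the invariants of the greedy algorithm -/
structure Good (x M : ℝ) (s : St) : Prop where
  dig : ∀ j, ∀ c ∈ s.L j, 1 ≤ c
  rel : ∀ u φ : ℝ, 0 < u → 0 ≤ φ → s.α * u * φ + s.β * u + s.γ * φ + s.δ = 0 →
    ev (s.L s.i) (1 / u) + ev (s.L (!s.i)) φ = x
  det : s.α * s.δ - s.β * s.γ = 1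
  ne : s.β ≠ 0
  neg : s.α * s.β < 0
  hA : M ≤ -s.δ / s.β
  small : (M + 1) * s.β ^ 2 ≤ 1

/-- the relation between consecutive states -/
structure Next (M : ℝ) (s s' : St) : Prop where
  beta : |s'.β| ≤ max (max (1 - s.β ^ 2) (1 - M)) (s.β ^ 2) * |s.β|
  hA : 1 / s.β ^ 2 - 1 ≤ -s'.δ / s'.β
  dig : ∀ j, ∃ l, s'.L j = s.L j ++ l ∧
    ∀ c ∈ l, 1 ≤ c ∧ min (-s.δ / s.β - 1) (1 / s.β ^ 2 - 1) ≤ (c : ℝ)
  len : (s.L s.i).length < (s'.L s.i).length
  len' : s'.i = !s.i ∨ (s.L (!s.i)).length < (s'.L (!s.i)).length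

theorem rel_swap (f g : ℝ → ℝ) (x α β γ δ : ℝ)
    (h : ∀ u φ : ℝ, 0 < u → 0 ≤ φ → α * u * φ + β * u + γ * φ + δ = 0 → f (1 / u) + g φ = x)
    (a : ℕ) (ha : 1 ≤ a) (u φ : ℝ) (hu : 0 < u) (hφ : 0 ≤ φ)
    (he : β * u * φ + (a * β + δ) * u + α * φ + (a * α + γ) = 0) :
    g (1 / u) + f (1 / ((a : ℝ) + φ)) = x := by
  have ha' : (1 : ℝ) ≤ a := by exact_mod_cast ha
  rw [add_comm]
  apply h ((a : ℝ) + φ) (1 / u) (by linarith) (by positivity)
  have : (α * (a + φ) * (1 / u) + β * (a + φ) + γ * (1 / u) + δ) * u = 0 := by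
    field_simp
    linarith
  rcases mul_eq_zero.1 this with h1 | h1
  · exact h1
  · exact absurd h1 hu.ne'

theorem rel_stay (f g : ℝ → ℝ) (x α β γ δ : ℝ)
    (h : ∀ u φ : ℝ, 0 < u → 0 ≤ φ → α * u * φ + β * u + γ * φ + δ = 0 → f (1 / u) + g φ = x)
    (a : ℕ) (ha : 1 ≤ a) (u φ : ℝ) (hu : 0 < u) (hφ : 0 ≤ φ)
    (he : (a * α + γ) * u * φ + (a * β + δ) * u + α * φ + β = 0) :
    f (1 / ((a : ℝ) + 1 / u)) + g φ = x := by
  have ha' : (1 : ℝ) ≤ a := by exact_mod_cast ha
  apply h ((a : ℝ) + 1 / u) φ (by positivity) hφ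
  have : (α * (a + 1 / u) * φ + β * (a + 1 / u) + γ * φ + δ) * u = 0 := by
    field_simp
    linarith
  rcases mul_eq_zero.1 this with h1 | h1
  · exact h1
  · exact absurd h1 hu.ne'

/-- the critical value is never an integer -/
theorem not_int (l l' : List ℕ) (x α β γ δ : ℝ) (hx : Irrational x)
    (h : ∀ u φ : ℝ, 0 < u → 0 ≤ φ → α * u * φ + β * u + γ * φ + δ = 0 →
      ev l (1 / u) + ev l' φ = x)
    (hβ : β ≠ 0) (hA : 0 < -δ / β) (n : ℕ) : -δ / β ≠ n := by
  intro hn
  have h1 := h (-δ / β) 0 hA le_rfl (by field_simp; ring)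
  rw [hn] at h1
  obtain ⟨r, hr⟩ := ev_rat l (1 / (n : ℚ))
  obtain ⟨r', hr'⟩ := ev_rat l' 0
  apply hx
  refine ⟨r + r', ?_⟩
  rw [← h1]
  push_cast
  rw [← hr, ← hr']
  push_cast
  rfl

/-- real-number facts for the first kind of move -/
theorem arith_one (α β γ δ A η e : ℝ) (a b : ℕ) (det : α * δ - β * γ = 1) (ne : β ≠ 0)
    (neg : α * β < 0) (hδ : δ = -A * β) (hη : η = A + 1 - a) (h0 : 0 < η) (h1 : η < 1)
    (he : e = -(a * α + γ) / (a * β + δ) - b) (he0 : 0 < e) (he1 : e < 1) (hβ1 : β ^ 2 < 1) :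
    (a * β + δ) = (1 - η) * β ∧ 1 / β ^ 2 ≤ -(a * α + γ) / (a * β + δ) ∧
    b * (a * β + δ) + (a * α + γ) = - (e * (1 - η)) * β ∧
    (a * β + δ) * (b * β + α) - (b * (a * β + δ) + (a * α + γ)) * β = 1 ∧
    (a * β + δ) * (b * (a * β + δ) + (a * α + γ)) < 0 ∧
    1 / β ^ 2 - 1 ≤ -(b * β + α) / (b * (a * β + δ) + (a * α + γ)) := by
  have hβ2 : 0 < β ^ 2 := by positivity
  obtain ⟨d, hd⟩ : ∃ d, d = 1 - η := ⟨_, rfl⟩
  have hd0 : 0 < d := by linarith
  have hd1 : d < 1 := by linarith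
  obtain ⟨β', hβ'⟩ : ∃ β', β' = a * β + δ := ⟨_, rfl⟩
  obtain ⟨δ', hδ'⟩ : ∃ δ', δ' = a * α + γ := ⟨_, rfl⟩
  have e1 : β' = d * β := by rw [hβ', hδ, hd, hη]; ring
  have hβ'ne : β' ≠ 0 := by rw [e1]; exact mul_ne_zero hd0.ne' ne
  have e2 : β * δ' = α * β' - 1 := by rw [hδ', hβ']; linear_combination -det
  rw [← hβ', ← hδ'] at he ⊢
  have e3 : b * β' + δ' = -(e * d) * β := by
    have : (b : ℝ) = -δ' / β' - e := by rw [he]; ring
    rw [this]
    field_simp
    rw [e1]
    ring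
  have e4 : β' * (b * β + α) - (b * β' + δ') * β = 1 := by
    linear_combination -e2
  have e5 : β' * (b * β' + δ') = -(e * d ^ 2 * β ^ 2) := by
    rw [e3, e1]; ring
  have hpos : 0 < e * d ^ 2 * β ^ 2 := by positivity
  refine ⟨by rw [← hd]; exact e1, ?_, by rw [← hd]; exact e3, e4, by rw [e5]; linarith, ?_⟩
  · have e6 : -δ' / β' = (1 - d * (α * β)) / (d * β ^ 2) := by
      rw [div_eq_div_iff hβ'ne (by positivity)]
      rw [e1]
      rw [e1] at e2
      linear_combination (-d * β) * e2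
    rw [e6, div_le_div_iff₀ hβ2 (by positivity)]
    have k0 : 0 < -(d * (α * β)) := by nlinarith
    have k1 : d ≤ 1 - d * (α * β) := by linarith
    have := mul_le_mul_of_nonneg_right k1 hβ2.le
    linarith
  · have hne : b * β' + δ' ≠ 0 := by
      intro h
      rw [h] at e5
      linarith
    have e6 : -(b * β + α) / (b * β' + δ') = (1 - e * d * β ^ 2) / (e * d ^ 2 * β ^ 2) := by
      rw [div_eq_div_iff hne hpos.ne']
      have : (b * β + α) * β' = 1 + β * (b * β' + δ') := by linear_combination e4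
      have h7 : -(b * β + α) * (e * d ^ 2 * β ^ 2) = ((b * β + α) * β') * (b * β' + δ') := by
        linear_combination (-(b * β + α)) * e5
      rw [h7, this, e3]
      ring
    rw [e6, le_div_iff₀ hpos]
    have e7 : (1 / β ^ 2 - 1) * (e * d ^ 2 * β ^ 2) = e * d ^ 2 * (1 - β ^ 2) := by
      field_simp
    rw [e7]
    have k1 : e * d < 1 := by nlinarith
    have k2 : 0 < e * d := by positivity
    have k3 : e * d * (1 - d) * β ^ 2 ≤ e * d * (1 - d) := by
      have : 0 < e * d * (1 - d) := mul_pos k2 (by linarith)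
      nlinarith
    nlinarith

/-- real-number facts for the second kind of move -/
theorem arith_two (α β γ δ A η e : ℝ) (a b : ℕ) (det : α * δ - β * γ = 1) (ne : β ≠ 0)
    (neg : α * β < 0) (hδ : δ = -A * β) (hη : η = A - a) (h0 : 0 < η) (h1 : η < 1)
    (hb : 1 ≤ b) (he : e = -β / (a * β + δ) - b) (he0 : 0 < e) (he1 : e < 1) :
    (a * β + δ) = - η * β ∧ -β / (a * β + δ) = 1 / η ∧
    b * (a * β + δ) + β = (e * η) * β ∧
    (a * β + δ) * (b * (a * α + γ) + α) - (b * (a * β + δ) + β) * (a * α + γ) = 1 ∧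
    (a * β + δ) * (b * (a * β + δ) + β) < 0 ∧
    1 / β ^ 2 - 1 ≤ -(b * (a * α + γ) + α) / (b * (a * β + δ) + β) := by
  have hβ2 : 0 < β ^ 2 := by positivity
  obtain ⟨β', hβ'⟩ : ∃ β', β' = a * β + δ := ⟨_, rfl⟩
  obtain ⟨α', hα'⟩ : ∃ α', α' = a * α + γ := ⟨_, rfl⟩
  have e1 : β' = -η * β := by rw [hβ', hδ, hη]; ring
  have hβ'ne : β' ≠ 0 := by rw [e1]; exact mul_ne_zero (by linarith) ne
  have e2 : β * α' = α * β' - 1 := by rw [hα', hβ']; linear_combination -det
  rw [← hβ'] at he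
  rw [← hβ', ← hα']
  have e0 : -β / β' = 1 / η := by
    rw [e1, div_eq_div_iff (by rw [← e1]; exact hβ'ne) h0.ne']
    ring
  have e3 : b * β' + β = (e * η) * β := by
    have : (b : ℝ) = 1 / η - e := by rw [he, e0]; ring
    rw [this, e1]
    field_simp
    ring
  have e4 : β' * (b * α' + α) - (b * β' + β) * α' = 1 := by
    linear_combination -e2
  have e5 : β' * (b * β' + β) = -(e * η ^ 2 * β ^ 2) := by
    rw [e3, e1]; ring
  have hpos : 0 < e * η ^ 2 * β ^ 2 := by positivity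
  refine ⟨e1, e0, e3, e4, by rw [e5]; linarith, ?_⟩
  have hne : b * β' + β ≠ 0 := by
    intro h
    rw [h] at e5
    linarith
  have hb' : (1 : ℝ) ≤ b := by exact_mod_cast hb
  have e6 : -(b * α' + α) / (b * β' + β) = (b - (e * η) * (α * β)) / (e * η * β ^ 2) := by
    rw [div_eq_div_iff hne (by positivity)]
    have h7 : β * (b * α' + α) = α * (b * β' + β) - b := by
      linear_combination (b : ℝ) * e2
    have h8 : -(b * α' + α) * (e * η * β ^ 2) = -(β * (b * α' + α)) * (e * η * β) := by ring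
    rw [h8, h7, e3]
    ring
  rw [e6]
  have h9 : 1 / β ^ 2 ≤ (b - (e * η) * (α * β)) / (e * η * β ^ 2) := by
    rw [div_le_div_iff₀ hβ2 (by positivity)]
    have k1 : e * η < 1 := by nlinarith
    have k2 : 0 < e * η := by positivity
    have k3 : 0 < -((e * η) * (α * β)) := by nlinarith
    nlinarith
  linarith

theorem step (x M : ℝ) (hx : Irrational x) (hM : 0 < M) (s : St) (hs : Good x M s) :
    ∃ s', Good x M s' ∧ Next M s s' := by
  obtain ⟨L, i, α, β, γ, δ⟩ := s
  obtain ⟨dig, rel, det, ne, neg, hA, small⟩ := hs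
  simp only at dig rel det ne neg hA small
  obtain ⟨A, hAdef⟩ : ∃ A, A = -δ / β := ⟨_, rfl⟩
  rw [← hAdef] at hA
  have hApos : 0 < A := lt_of_lt_of_le hM hA
  have hδ : δ = -A * β := by rw [hAdef]; field_simp
  have hβ2 : 0 < β ^ 2 := by positivity
  have hβ1 : β ^ 2 < 1 := by nlinarith
  have hMβ : M ≤ 1 / β ^ 2 - 1 := by
    rw [le_sub_iff_add_le, le_div_iff₀ hβ2]
    exact small
  have hnon := not_int _ _ x α β γ δ hx rel ne (by rw [← hAdef]; exact hApos)
  rw [← hAdef] at hnon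
  have h1 : ((⌊A⌋₊ : ℕ) : ℝ) ≤ A := Nat.floor_le hApos.le
  have h2 : A < (⌊A⌋₊ : ℕ) + 1 := Nat.lt_floor_add_one A
  obtain ⟨a0, ha0⟩ : ∃ a0, a0 = ⌊A⌋₊ := ⟨_, rfl⟩
  rw [← ha0] at h1 h2
  have h3 : A ≠ a0 := hnon a0
  have h1' : (a0 : ℝ) < A := lt_of_le_of_ne h1 (Ne.symm h3)
  obtain ⟨η, hη⟩ : ∃ η, η = A - a0 := ⟨_, rfl⟩
  have hη0 : 0 < η := by linarith
  have hη1 : η < 1 := by linarith
  have hii : ∀ j : Bool, j = i ∨ j = !i := by
    intro j; cases i <;> cases j <;> simp
  have hni : (!i) ≠ i := by cases i <;> simp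
  by_cases hc : η < β ^ 2 ∧ 1 ≤ a0
  · -- second kind of move
    obtain ⟨hc1, hc2⟩ := hc
    have r2 : ∀ u φ : ℝ, 0 < u → 0 ≤ φ →
        (a0 * α + γ) * u * φ + (a0 * β + δ) * u + α * φ + β = 0 →
        ev (L i ++ [a0]) (1 / u) + ev (L (!i)) φ = x := by
      intro u φ hu hφ he
      rw [ev_concat]
      exact rel_stay (ev (L i)) (ev (L (!i))) x α β γ δ rel a0 hc2 u φ hu hφ he
    have e1 : (a0 * β + δ) = -η * β := by rw [hδ, hη]; ring
    have ne' : (a0 * β + δ) ≠ 0 := by rw [e1]; exact mul_ne_zero (by linarith) ne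
    have e2 : -β / (a0 * β + δ) = 1 / η := by
      rw [e1, div_eq_div_iff (by rw [← e1]; exact ne') hη0.ne']
      ring
    have hn := not_int _ _ x _ _ _ _ hx r2 ne' (by rw [e2]; positivity)
    rw [e2] at hn
    obtain ⟨b, hb⟩ : ∃ b, b = ⌊1 / η⌋₊ := ⟨_, rfl⟩
    have hη' : 1 < 1 / η := by rw [lt_div_iff₀ hη0]; linarith
    have h4 : ((⌊1 / η⌋₊ : ℕ) : ℝ) ≤ 1 / η := Nat.floor_le (by positivity)
    have h5 : 1 / η < (⌊1 / η⌋₊ : ℕ) + 1 := Nat.lt_floor_add_one _
    rw [← hb] at h4 h5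
    have h6 : (b : ℝ) < 1 / η := lt_of_le_of_ne h4 (Ne.symm (hn b))
    have hb1 : 1 ≤ b := by
      rw [hb]
      exact Nat.le_floor (by exact_mod_cast hη'.le)
    obtain ⟨f1, f2, f3, f4, f5, f6⟩ := arith_two α β γ δ A η (1 / η - b) a0 b det ne neg hδ hη
      hη0 hη1 hb1 (by rw [e2]) (by linarith) (by linarith)
    have r3 : ∀ u φ : ℝ, 0 < u → 0 ≤ φ →
        (a0 * β + δ) * u * φ + (b * (a0 * β + δ) + β) * u + (a0 * α + γ) * φ
          + (b * (a0 * α + γ) + α) = 0 →
        ev (L (!i)) (1 / u) + ev ((L i ++ [a0]) ++ [b]) φ = x := by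
      intro u φ hu hφ he
      rw [ev_concat]
      exact rel_swap (ev (L i ++ [a0])) (ev (L (!i))) x _ _ _ _ r2 b hb1 u φ hu hφ he
    have hηinv : 1 / β ^ 2 < 1 / η := one_div_lt_one_div_of_lt hη0 hc1
    have habs : |b * (a0 * β + δ) + β| = ((1 / η - b) * η) * |β| := by
      rw [f3, abs_mul, abs_of_pos (mul_pos (by linarith) hη0)]
    have hle : (1 / η - b) * η ≤ β ^ 2 :=
      (mul_le_of_le_one_left hη0.le (by linarith)).trans hc1.le
    refine ⟨⟨fun j => if j = i then (L i ++ [a0]) ++ [b] else L (!i), !i, a0 * β + δ,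
      b * (a0 * β + δ) + β, a0 * α + γ, b * (a0 * α + γ) + α⟩,
      ⟨?_, ?_, ?_, ?_, ?_, ?_, ?_⟩, ⟨?_, ?_, ?_, ?_, ?_⟩⟩
    · intro j c hcj
      simp only at hcj
      split_ifs at hcj
      · rw [List.mem_append, List.mem_append, List.mem_singleton, List.mem_singleton] at hcj
        rcases hcj with (hcj | rfl) | rfl
        · exact dig i c hcj
        · exact hc2
        · exact hb1
      · exact dig _ c hcj
    · simp only [Bool.not_not, if_pos, if_neg hni]
      exact r3
    · simp only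
      linarith
    · simp only
      intro h
      rw [h] at f5
      simp at f5
    · simp only
      linarith
    · simp only
      exact hMβ.trans f6
    · simp only
      have : (b * (a0 * β + δ) + β) ^ 2 ≤ β ^ 2 := by
        rw [← sq_abs, habs, mul_pow, sq_abs]
        have h0 : 0 < (1 / η - b) * η := mul_pos (by linarith) hη0
        exact mul_le_of_le_one_left hβ2.le (pow_le_one₀ h0.le (by linarith))
      exact (mul_le_mul_of_nonneg_left this (by linarith)).trans small
    · simp only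
      rw [habs]
      exact mul_le_mul_of_nonneg_right (hle.trans (le_max_right _ _)) (abs_nonneg _)
    · simp only
      exact f6
    · intro j
      simp only
      rcases hii j with rfl | rfl
      · refine ⟨[a0, b], by simp, ?_⟩
        intro c hcj
        simp only [List.mem_cons, List.not_mem_nil, or_false] at hcj
        rcases hcj with rfl | rfl
        · refine ⟨hc2, (min_le_left _ _).trans ?_⟩
          rw [← hAdef]; linarith
        · refine ⟨hb1, (min_le_right _ _).trans ?_⟩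
          linarith
      · refine ⟨[], by simp [hni], ?_⟩
        intro c hcj
        simp at hcj
    · simp
    · left; rfl
  · -- first kind of move
    have hca : 1 ≤ a0 + 1 := by omega
    have r2 : ∀ u φ : ℝ, 0 < u → 0 ≤ φ →
        β * u * φ + (((a0 + 1 : ℕ) : ℝ) * β + δ) * u + α * φ + (((a0 + 1 : ℕ) : ℝ) * α + γ) = 0 →
        ev (L (!i)) (1 / u) + ev (L i ++ [a0 + 1]) φ = x := by
      intro u φ hu hφ he
      rw [ev_concat]
      exact rel_swap (ev (L i)) (ev (L (!i))) x α β γ δ rel (a0 + 1) hca u φ hu hφ he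
    obtain ⟨a, ha⟩ : ∃ a, a = a0 + 1 := ⟨_, rfl⟩
    rw [← ha] at r2 hca
    have hη' : η = A + 1 - a := by rw [ha, hη]; push_cast; ring
    -- a first application of the arithmetic to find the value of the critical number
    have hd0 : 0 < 1 - η := by linarith
    have e1 : (a * β + δ) = (1 - η) * β := by rw [hδ, hη']; ring
    have ne' : (a * β + δ) ≠ 0 := by rw [e1]; exact mul_ne_zero hd0.ne' ne
    have e2 : β * (a * α + γ) = α * (a * β + δ) - 1 := by linear_combination -det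
    have e3 : 1 / β ^ 2 < -(a * α + γ) / (a * β + δ) := by
      have e6 : -(a * α + γ) / (a * β + δ) = (1 - (1 - η) * (α * β)) / ((1 - η) * β ^ 2) := by
        rw [div_eq_div_iff ne' (by positivity)]
        rw [e1]
        rw [e1] at e2
        linear_combination (-(1 - η) * β) * e2
      rw [e6, div_lt_div_iff₀ hβ2 (by positivity)]
      have k0 : 0 < -((1 - η) * (α * β)) := by nlinarith
      have k1 : 1 - η < 1 - (1 - η) * (α * β) := by linarith
      have := mul_lt_mul_of_pos_right k1 hβ2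
      linarith
    have hβinv : 1 < 1 / β ^ 2 := by rw [lt_div_iff₀ hβ2]; linarith
    obtain ⟨A', hA'⟩ : ∃ A', A' = -(a * α + γ) / (a * β + δ) := ⟨_, rfl⟩
    rw [← hA'] at e3
    have hA'pos : 1 < A' := by linarith
    have hn := not_int _ _ x _ _ _ _ hx r2 ne' (by rw [← hA']; linarith)
    rw [← hA'] at hn
    obtain ⟨b, hb⟩ : ∃ b, b = ⌊A'⌋₊ := ⟨_, rfl⟩
    have h4 : ((⌊A'⌋₊ : ℕ) : ℝ) ≤ A' := Nat.floor_le (by linarith)
    have h5 : A' < (⌊A'⌋₊ : ℕ) + 1 := Nat.lt_floor_add_one _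
    rw [← hb] at h4 h5
    have h6 : (b : ℝ) < A' := lt_of_le_of_ne h4 (Ne.symm (hn b))
    have hb1 : 1 ≤ b := by
      rw [hb]
      exact Nat.le_floor (by exact_mod_cast hA'pos.le)
    obtain ⟨f1, f2, f3, f4, f5, f6⟩ := arith_one α β γ δ A η (A' - b) a b det ne neg hδ hη'
      hη0 hη1 (by rw [hA']) (by linarith) (by linarith) hβ1
    have r3 : ∀ u φ : ℝ, 0 < u → 0 ≤ φ →
        (a * β + δ) * u * φ + (b * (a * β + δ) + (a * α + γ)) * u + β * φ
          + (b * β + α) = 0 →
        ev (L i ++ [a]) (1 / u) + ev (L (!i) ++ [b]) φ = x := by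
      intro u φ hu hφ he
      rw [ev_concat (L (!i))]
      exact rel_swap (ev (L (!i))) (ev (L i ++ [a])) x _ _ _ _ r2 b hb1 u φ hu hφ he
    have habs : |b * (a * β + δ) + (a * α + γ)| = ((A' - b) * (1 - η)) * |β| := by
      rw [f3, abs_mul, abs_neg, abs_of_pos (mul_pos (by linarith) hd0)]
    have hle : (A' - b) * (1 - η) ≤ 1 - η := mul_le_of_le_one_left hd0.le (by linarith)
    have hcase : 1 - η ≤ max (1 - β ^ 2) (1 - M) := by
      by_cases h : η < β ^ 2
      · have h0 : a0 = 0 := by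
          by_contra h0
          exact hc ⟨h, by omega⟩
        refine le_trans ?_ (le_max_right _ _)
        rw [h0] at hη
        push_cast at hη
        linarith
      · refine le_trans ?_ (le_max_left _ _)
        linarith
    refine ⟨⟨fun j => if j = i then L i ++ [a] else L (!i) ++ [b], i, a * β + δ,
      b * (a * β + δ) + (a * α + γ), β, b * β + α⟩,
      ⟨?_, ?_, ?_, ?_, ?_, ?_, ?_⟩, ⟨?_, ?_, ?_, ?_, ?_⟩⟩
    · intro j c hcj
      simp only at hcj
      split_ifs at hcj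
      · rw [List.mem_append, List.mem_singleton] at hcj
        rcases hcj with hcj | rfl
        · exact dig i c hcj
        · exact hca
      · rw [List.mem_append, List.mem_singleton] at hcj
        rcases hcj with hcj | rfl
        · exact dig _ c hcj
        · exact hb1
    · simp only [if_pos, if_neg hni]
      exact r3
    · simp only
      linarith
    · simp only
      intro h
      rw [h] at f5
      simp at f5
    · simp only
      linarith
    · simp only
      exact hMβ.trans f6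
    · simp only
      have : (b * (a * β + δ) + (a * α + γ)) ^ 2 ≤ β ^ 2 := by
        rw [← sq_abs, habs, mul_pow, sq_abs]
        have h0 : 0 < (A' - b) * (1 - η) := mul_pos (by linarith) hd0
        exact mul_le_of_le_one_left hβ2.le (pow_le_one₀ h0.le (by linarith))
      exact (mul_le_mul_of_nonneg_left this (by linarith)).trans small
    · simp only
      rw [habs]
      exact mul_le_mul_of_nonneg_right ((hle.trans hcase).trans (le_max_left _ _)) (abs_nonneg _)
    · simp only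
      exact f6
    · intro j
      simp only
      rcases hii j with rfl | rfl
      · refine ⟨[a], by simp, ?_⟩
        intro c hcj
        rw [List.mem_singleton] at hcj
        subst hcj
        refine ⟨hca, (min_le_left _ _).trans ?_⟩
        rw [← hAdef]
        linarith
      · refine ⟨[b], by simp [hni], ?_⟩
        intro c hcj
        rw [List.mem_singleton] at hcj
        subst hcj
        refine ⟨hb1, (min_le_right _ _).trans ?_⟩
        linarith
    · simp
    · right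
      simp [hni]

end Pool.Agent.Y944.SumCF
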