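import Pool.Agent.Y944.SumCF

set_option autoImplicit false
set_option maxHeartbeats 4000000

open Filter Topology

namespace Pool.Agent.Y944.SumCF

open H313R3.BK

theorem gauss_cf (a : ℕ → ℕ) (h : ∀ i, 1 ≤ a i) (n : ℕ) :
    (fun y : ℝ => Int.fract (1 / y))^[n] (cf a) = cf (shn n a) := by
  induction n with
  | zero => rfl
  | succ n ih =>
    rw [Function.iterate_succ_apply', ih]
    have hs : ∀ i, 1 ≤ shn n a i := fun i => h (i + n)
    have hs' : ∀ i, 1 ≤ shn (n + 1) a i := fun i => h (i + (n + 1))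
    have e : (1 : ℝ) / (cf (shn n a)) = (a n : ℝ) + cf (shn (n + 1) a) := by
      rw [cf_rec _ hs, sh_shn]
      simp [shn]
    have h1 := cf_pos _ hs'
    have h2 := cf_lt_one _ hs'
    show Int.fract (1 / cf (shn n a)) = _
    rw [e, Int.fract_natCast_add]
    exact Int.fract_eq_self.2 ⟨h1.le, h2⟩

theorem floor_cf (a : ℕ → ℕ) (h : ∀ i, 1 ≤ a i) (n : ℕ) :
    ⌊1 / ((fun y : ℝ => Int.fract (1 / y))^[n] (cf a))⌋ = (a n : ℤ) := by
  rw [gauss_cf a h n]
  have hs : ∀ i, 1 ≤ shn n a i := fun i => h (i + n)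
  have hs' : ∀ i, 1 ≤ shn (n + 1) a i := fun i => h (i + (n + 1))
  have e : (1 : ℝ) / (cf (shn n a)) = (a n : ℝ) + cf (shn (n + 1) a) := by
    rw [cf_rec _ hs, sh_shn]
    simp [shn]
  have h1 := cf_pos _ hs'
  have h2 := cf_lt_one _ hs'
  rw [e, Int.floor_eq_iff]
  push_cast
  constructor <;> linarith

theorem extract (ℓ : ℕ → List ℕ) (D : ℕ → ℝ) (hD : Tendsto D atTop atTop)
    (h0 : ∀ c ∈ ℓ 0, 1 ≤ c)
    (h1 : ∀ k, ∃ l, ℓ (k + 1) = ℓ k ++ l ∧ ∀ c ∈ l, 1 ≤ c ∧ D k ≤ (c : ℝ))
    (h2 : ∀ k, (ℓ k).length < (ℓ (k + 2)).length) :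
    ∃ a : ℕ → ℕ, (∀ n, 1 ≤ a n) ∧ Tendsto a atTop atTop ∧
      (∀ k, ℓ k = (List.range (ℓ k).length).map a) ∧ ∀ n, n ≤ (ℓ (2 * n)).length := by
  have hpre : ∀ k m, ℓ k <+: ℓ (k + m) := by
    intro k m
    induction m with
    | zero => exact List.prefix_refl _
    | succ m ih =>
      obtain ⟨l, hl, -⟩ := h1 (k + m)
      refine ih.trans ?_
      rw [← add_assoc, hl]
      exact List.prefix_append _ _
  have hpre' : ∀ k k', k ≤ k' → ℓ k <+: ℓ k' := by
    intro k k' h
    obtain ⟨m, rfl⟩ := Nat.exists_eq_add_of_le h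
    exact hpre k m
  have hlen : ∀ n, n ≤ (ℓ (2 * n)).length := by
    intro n
    induction n with
    | zero => exact Nat.zero_le _
    | succ n ih =>
      have := h2 (2 * n)
      have e : 2 * (n + 1) = 2 * n + 2 := by ring
      rw [e]
      omega
  have hone : ∀ k, ∀ c ∈ ℓ k, 1 ≤ c := by
    intro k
    induction k with
    | zero => exact h0
    | succ k ih =>
      obtain ⟨l, hl, hl'⟩ := h1 k
      intro c hc
      rw [hl, List.mem_append] at hc
      rcases hc with hc | hc
      · exact ih c hc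
      · exact (hl' c hc).1
  have hlt : ∀ n, n < (ℓ (2 * (n + 1))).length := fun n => hlen (n + 1)
  set a : ℕ → ℕ := fun n => (ℓ (2 * (n + 1)))[n]'(hlt n) with ha
  have key : ∀ k n (h : n < (ℓ k).length), (ℓ k)[n] = a n := by
    intro k n h
    rcases le_total k (2 * (n + 1)) with hk | hk
    · exact List.IsPrefix.getElem (hpre' _ _ hk) h
    · exact (List.IsPrefix.getElem (hpre' _ _ hk) (hlt n)).symm
  refine ⟨a, ?_, ?_, ?_, hlen⟩
  · intro n
    exact hone _ _ (List.getElem_mem (hlt n))
  · rw [tendsto_atTop]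
    intro K
    obtain ⟨k0, hk0⟩ := (tendsto_atTop.1 hD (K : ℝ)).exists_forall_of_atTop
    have hbig : ∀ m n, (ℓ k0).length ≤ n → ∀ h : n < (ℓ (k0 + m)).length, K ≤ (ℓ (k0 + m))[n] := by
      intro m
      induction m with
      | zero =>
        intro n hn h
        simp only [add_zero] at h
        omega
      | succ m ih =>
        intro n hn h
        obtain ⟨l, hl, hl'⟩ := h1 (k0 + m)
        by_cases hc : n < (ℓ (k0 + m)).length
        · have := ih n hn hc
          have e := List.IsPrefix.getElem (hpre' (k0 + m) (k0 + (m + 1)) (by omega)) hc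
          rw [← e]
          exact this
        · have hmem : (ℓ (k0 + (m + 1)))[n] ∈ l := by
            have e : (ℓ (k0 + (m + 1)))[n] = (ℓ (k0 + m) ++ l)[n]'(by rw [← hl]; exact h) := by
              congr 1
            rw [e, List.getElem_append_right (by omega)]
            exact List.getElem_mem _
          have h3 := (hl' _ hmem).2
          have h4 := hk0 (k0 + m) (by omega)
          exact_mod_cast h4.trans h3
    filter_upwards [eventually_ge_atTop (ℓ k0).length, eventually_ge_atTop k0] with n hn hn'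
    obtain ⟨m, hm⟩ := Nat.exists_eq_add_of_le (show k0 ≤ 2 * (n + 1) by omega)
    have h5 : n < (ℓ (k0 + m)).length := by rw [← hm]; exact hlt n
    have := hbig m n hn h5
    rw [key (k0 + m) n h5] at this
    exact this
  · intro k
    apply List.ext_getElem
    · simp
    · intro n hn hn'
      rw [key k n hn]
      simp

theorem beta_tendsto (M : ℝ) (hM : 0 < M) (B : ℕ → ℝ) (hB : ∀ k, 0 ≤ B k)
    (hs : ∀ k, (M + 1) * B k ^ 2 ≤ 1)
    (h : ∀ k, B (k + 1) ≤ max (max (1 - B k ^ 2) (1 - M)) (B k ^ 2) * B k) :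
    Tendsto B atTop (𝓝 0) := by
  have hsq : ∀ k, B k ^ 2 ≤ 1 / (M + 1) := by
    intro k
    rw [le_div_iff₀ (by linarith)]
    linarith [hs k]
  have hM1 : 1 / (M + 1) < 1 := by
    rw [div_lt_one (by linarith)]
    linarith
  have hanti : Antitone B := by
    apply antitone_nat_of_succ_le
    intro k
    refine (h k).trans (mul_le_of_le_one_left (hB k) ?_)
    refine max_le (max_le ?_ ?_) ?_
    · linarith [sq_nonneg (B k)]
    · linarith
    · linarith [hsq k]
  have hbdd : BddBelow (Set.range B) := ⟨0, by rintro _ ⟨k, rfl⟩; exact hB k⟩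
  have hlim := tendsto_atTop_ciInf hanti hbdd
  obtain ⟨L, hL⟩ : ∃ L, L = ⨅ i, B i := ⟨_, rfl⟩
  rw [← hL] at hlim
  have hL0 : 0 ≤ L := by
    rw [hL]
    exact le_ciInf hB
  rcases hL0.eq_or_lt with h0 | h0
  · rw [h0]
    exact hlim
  · exfalso
    have hle : ∀ k, L ≤ B k := fun k => by rw [hL]; exact ciInf_le hbdd k
    obtain ⟨C, hC⟩ : ∃ C, C = max (max (1 - L ^ 2) (1 - M)) (1 / (M + 1)) := ⟨_, rfl⟩
    have hC1 : C < 1 := by
      rw [hC]
      refine max_lt (max_lt ?_ ?_) hM1
      · have : 0 < L ^ 2 := by positivity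
        linarith
      · linarith
    have hC0 : 0 ≤ C := by
      rw [hC]
      refine le_trans ?_ (le_max_right _ _)
      positivity
    have hpow : ∀ k, B k ≤ C ^ k * B 0 := by
      intro k
      induction k with
      | zero => simp
      | succ k ih =>
        have h1 : max (max (1 - B k ^ 2) (1 - M)) (B k ^ 2) ≤ C := by
          rw [hC]
          refine max_le_max (max_le_max ?_ le_rfl) (hsq k)
          have : L ^ 2 ≤ B k ^ 2 := pow_le_pow_left₀ hL0 (hle k) 2
          linarith
        calc B (k + 1) ≤ max (max (1 - B k ^ 2) (1 - M)) (B k ^ 2) * B k := h k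
          _ ≤ C * B k := mul_le_mul_of_nonneg_right h1 (hB k)
          _ ≤ C * (C ^ k * B 0) := mul_le_mul_of_nonneg_left ih hC0
          _ = C ^ (k + 1) * B 0 := by ring
    have h2 : Tendsto (fun k => C ^ k * B 0) atTop (𝓝 (0 * B 0)) :=
      (tendsto_pow_atTop_nhds_zero_of_lt_one hC0 hC1).mul_const _
    rw [zero_mul] at h2
    have h3 : L ≤ 0 := ge_of_tendsto' h2 (fun k => (hle k).trans (hpow k))
    linarith

theorem main_irrational (x : ℝ) (hx : Irrational x) (h0 : 0 < x) (h1 : x < 1) :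
    ∃ a b : ℕ → ℕ, (∀ n, 1 ≤ a n) ∧ (∀ n, 1 ≤ b n) ∧ Tendsto a atTop atTop ∧
      Tendsto b atTop atTop ∧ x = cf a + cf b := by
  obtain ⟨M, hMdef⟩ : ∃ M, M = min (1 / x) (1 / x ^ 2 - 1) := ⟨_, rfl⟩
  have hx2 : 0 < x ^ 2 := by positivity
  have hx21 : x ^ 2 < 1 := by nlinarith
  have hM : 0 < M := by
    rw [hMdef]
    refine lt_min (by positivity) ?_
    rw [sub_pos, lt_div_iff₀ hx2]
    linarith
  have hgood : Good x M ⟨fun _ => [], true, -1, x, 0, -1⟩ := by
    refine ⟨?_, ?_, ?_, ?_, ?_, ?_, ?_⟩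
    · intro j c hc
      simp at hc
    · intro u φ hu hφ he
      simp only at he
      simp only [ev_nil]
      have : u * (x - φ) = 1 := by linarith
      field_simp
      linarith
    · simp
    · exact h0.ne'
    · simp only
      linarith
    · simp only
      rw [hMdef, neg_neg]
      exact min_le_left _ _
    · simp only
      have : M ≤ 1 / x ^ 2 - 1 := by rw [hMdef]; exact min_le_right _ _
      rw [le_sub_iff_add_le, le_div_iff₀ hx2] at this
      exact this
  have hnext : ∀ s : {s : St // Good x M s}, ∃ s' : {s : St // Good x M s}, Next M s.1 s'.1 := by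
    rintro ⟨s, hs⟩
    obtain ⟨s', h1, h2⟩ := step x M hx hM s hs
    exact ⟨⟨s', h1⟩, h2⟩
  choose f hf using hnext
  obtain ⟨S, hS0, hS⟩ : ∃ S : ℕ → {s : St // Good x M s}, S 0 = ⟨_, hgood⟩ ∧
      ∀ k, S (k + 1) = f (S k) := by
    exact ⟨fun n => f^[n] ⟨_, hgood⟩, rfl, fun k => Function.iterate_succ_apply' f k _⟩
  have hN : ∀ k, Next M (S k).1 (S (k + 1)).1 := by
    intro k
    rw [hS k]
    exact hf (S k)
  have hβ : Tendsto (fun k => |(S k).1.β|) atTop (𝓝 0) := by
    apply beta_tendsto M hM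
    · intro k
      exact abs_nonneg _
    · intro k
      rw [sq_abs]
      exact (S k).2.small
    · intro k
      rw [sq_abs]
      exact (hN k).beta
  have hinv : Tendsto (fun k => 1 / (S k).1.β ^ 2 - 1) atTop atTop := by
    have h2 : Tendsto (fun k => (S k).1.β ^ 2) atTop (𝓝[>] 0) := by
      rw [tendsto_nhdsWithin_iff]
      constructor
      · have := hβ.pow 2
        simpa using this
      · filter_upwards with k
        have := (S k).2.ne
        show 0 < (S k).1.β ^ 2
        positivity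
    have h3 := tendsto_inv_nhdsGT_zero.comp h2
    have h4 : Tendsto (fun k => ((S k).1.β ^ 2)⁻¹ + (-1)) atTop atTop :=
      tendsto_atTop_add_const_right _ _ h3
    refine h4.congr (fun k => ?_)
    rw [one_div]
    ring
  have hA : Tendsto (fun k => -(S k).1.δ / (S k).1.β) atTop atTop := by
    rw [← tendsto_add_atTop_iff_nat 1]
    exact tendsto_atTop_mono (fun k => (hN k).hA) hinv
  have hD : Tendsto (fun k => min (-(S k).1.δ / (S k).1.β - 1) (1 / (S k).1.β ^ 2 - 1))
      atTop atTop := by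
    rw [tendsto_atTop]
    intro K
    filter_upwards [tendsto_atTop.1 hA (K + 1), tendsto_atTop.1 hinv K] with k hk hk'
    exact le_min (by linarith) hk'
  have hlen : ∀ (j : Bool) (k : ℕ), ((S k).1.L j).length < ((S (k + 2)).1.L j).length := by
    intro j k
    have hmono : ∀ k, ((S k).1.L j).length ≤ ((S (k + 1)).1.L j).length := by
      intro k
      obtain ⟨l, hl, -⟩ := (hN k).dig j
      rw [hl, List.length_append]
      omega
    have hii : j = (S k).1.i ∨ j = !(S k).1.i := by
      cases j <;> cases (S k).1.i <;> simp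
    rcases hii with h | h
    · have h2 := (hN k).len
      rw [← h] at h2
      exact h2.trans_le (hmono (k + 1))
    · rcases (hN k).len' with h2 | h2
      · rw [← h] at h2
        have h3 := (hN (k + 1)).len
        rw [h2] at h3
        exact (hmono k).trans_lt h3
      · rw [← h] at h2
        exact h2.trans_le (hmono (k + 1))
  have hext : ∀ j : Bool, ∃ a : ℕ → ℕ, (∀ n, 1 ≤ a n) ∧ Tendsto a atTop atTop ∧
      (∀ k, (S k).1.L j = (List.range ((S k).1.L j).length).map a) ∧
      ∀ n, n ≤ ((S (2 * n)).1.L j).length := by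
    intro j
    exact extract (fun k => (S k).1.L j) _ hD ((S 0).2.dig j) (fun k => (hN k).dig j) (hlen j)
  choose c hc1 hc2 hc3 hc4 using hext
  refine ⟨c true, c false, hc1 true, hc1 false, hc2 true, hc2 false, ?_⟩
  have happrox : ∀ᶠ n in atTop, |x - (cf (c true) + cf (c false))| ≤ 4 * (1 / 2 : ℝ) ^ n := by
    have h2n : Tendsto (fun n : ℕ => 2 * n) atTop atTop :=
      tendsto_id.const_mul_atTop' (by norm_num)
    filter_upwards [(tendsto_atTop.1 (hA.comp h2n) 1)] with n hn
    simp only [Function.comp_apply] at hn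
    obtain ⟨s, hs⟩ : ∃ s, s = (S (2 * n)).1 := ⟨_, rfl⟩
    have hg : Good x M s := by rw [hs]; exact (S (2 * n)).2
    rw [← hs] at hn
    have hrel := hg.rel (-s.δ / s.β) 0 (by linarith) le_rfl (by
      have := hg.ne
      field_simp
      ring)
    have happ : ∀ (j : Bool) (t : ℝ), 0 ≤ t → t ≤ 1 → |ev (s.L j) t - cf (c j)| ≤ 2 * (1 / 2) ^ n := by
      intro j t ht0 ht1
      have e1 : cf (c j) = ev (s.L j) (cf (shn (s.L j).length (c j))) := by
        conv_rhs => rw [hs, hc3 j (2 * n)]
        rw [List.length_map, List.length_range]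
        exact (ev_cf (c j) (hc1 j) _).symm
      rw [e1]
      have hpos : ∀ i, 1 ≤ shn (s.L j).length (c j) i := fun i => hc1 j _
      refine (ev_dist (s.L j) (hg.dig j) t _ ht0 ht1 (cf_pos _ hpos).le (cf_lt_one _ hpos).le).trans ?_
      have h5 : n ≤ (s.L j).length := by rw [hs]; exact hc4 j n
      have := pow_le_pow_of_le_one (show (0 : ℝ) ≤ 1 / 2 by norm_num) (by norm_num) h5
      linarith
    have h6 := happ s.i (1 / (-s.δ / s.β)) (by positivity) (by
      rw [div_le_one (by linarith)]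
      exact hn)
    have h7 := happ (!s.i) 0 le_rfl zero_le_one
    have h8 : cf (c true) + cf (c false) = cf (c s.i) + cf (c (!s.i)) := by
      cases s.i
      · simp [add_comm]
      · simp
    rw [h8, ← hrel]
    rw [abs_le] at h6 h7 ⊢
    constructor <;> linarith [h6.1, h6.2, h7.1, h7.2]
  have hz : Tendsto (fun n : ℕ => 4 * (1 / 2 : ℝ) ^ n) atTop (𝓝 (4 * 0)) :=
    (tendsto_pow_atTop_nhds_zero_of_lt_one (by norm_num) (by norm_num)).const_mul _
  rw [mul_zero] at hz
  have h9 : |x - (cf (c true) + cf (c false))| ≤ 0 := ge_of_tendsto hz happrox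
  have h10 := abs_eq_zero.1 (le_antisymm h9 (abs_nonneg _))
  linarith

end Pool.Agent.Y944.SumCF
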